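import Pool.Agent.W622.BK.Stm

/-! Project BK, part JACA: the Jacobi identity. -/

set_option autoImplicit false

namespace Pool.Agent.W753.BK

open Module Pool.Agent.W622.BK

universe u

theorem rot {n : ℕ} {L : Type u} [AddCommMonoid L] (g : Fin n → Fin n → Fin n → L) :
    ∑ a, ∑ b, ∑ c, g a b c = ∑ a, ∑ b, ∑ c, g c a b := by
  rw [Finset.sum_comm]
  refine Finset.sum_congr rfl fun b _ => ?_
  rw [Finset.sum_comm]

theorem sum_zero {n : ℕ} {L : Type u} [AddCommGroup L] (f : Fin n → Fin n → Fin n → L)
    (h1 : ∀ a c, f a a c = 0) (h2 : ∀ a c, f a c c = 0) (h3 : ∀ a b, f a b a = 0)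
    (h4 : ∀ a b c, f a b c + f b c a + f c a b = 0) : ∑ a, ∑ b, ∑ c, f a b c = 0 := by
  have hs : ∀ a b c, f a b c = (if a < b ∧ a < c then f a b c else 0) +
      (if b < a ∧ b < c then f a b c else 0) + (if c < a ∧ c < b then f a b c else 0) := by
    intro a b c
    rcases lt_trichotomy a b with hab | hab | hab
    · rcases lt_trichotomy a c with hac | hac | hac
      · rw [if_pos ⟨hab, hac⟩, if_neg (fun h => absurd h.1 (not_lt.2 hab.le)),
          if_neg (fun h => absurd h.1 (not_lt.2 hac.le)), add_zero, add_zero]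
      · subst hac
        rw [h3]
        simp
      · rw [if_neg (fun h => absurd h.2 (not_lt.2 hac.le)),
          if_neg (fun h => absurd h.1 (not_lt.2 hab.le)), if_pos ⟨hac, hac.trans hab⟩, zero_add,
          zero_add]
    · subst hab
      rw [h1]
      simp
    · rcases lt_trichotomy b c with hbc | hbc | hbc
      · rw [if_neg (fun h => absurd h.1 (not_lt.2 hab.le)), if_pos ⟨hab, hbc⟩,
          if_neg (fun h => absurd h.2 (not_lt.2 hbc.le)), zero_add, add_zero]
      · subst hbc
        rw [h2]
        simp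
      · rw [if_neg (fun h => absurd h.1 (not_lt.2 hab.le)),
          if_neg (fun h => absurd h.2 (not_lt.2 hbc.le)), if_pos ⟨hbc.trans hab, hbc⟩, zero_add,
          zero_add]
  calc ∑ a, ∑ b, ∑ c, f a b c
      = ∑ a, ∑ b, ∑ c, ((if a < b ∧ a < c then f a b c else 0) +
      (if b < a ∧ b < c then f a b c else 0) + (if c < a ∧ c < b then f a b c else 0)) := by
        refine Finset.sum_congr rfl fun a _ => ?_
        refine Finset.sum_congr rfl fun b _ => ?_
        refine Finset.sum_congr rfl fun c _ => ?_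
        exact hs a b c
    _ = ∑ a, ∑ b, ∑ c, (if a < b ∧ a < c then f a b c else 0) +
      ∑ a, ∑ b, ∑ c, (if b < a ∧ b < c then f a b c else 0) +
      ∑ a, ∑ b, ∑ c, (if c < a ∧ c < b then f a b c else 0) := by
        simp only [Finset.sum_add_distrib]
    _ = ∑ a, ∑ b, ∑ c, (if a < b ∧ a < c then f a b c else 0) +
      ∑ a, ∑ b, ∑ c, (if a < c ∧ a < b then f c a b else 0) +
      ∑ a, ∑ b, ∑ c, (if a < b ∧ a < c then f b c a else 0) := by
        rw [rot (fun a b c => if b < a ∧ b < c then f a b c else 0),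
          rot (fun a b c => if c < a ∧ c < b then f a b c else 0),
          rot (fun a b c => if b < c ∧ b < a then f c a b else 0)]
    _ = ∑ a, ∑ b, ∑ c, (if a < b ∧ a < c then f a b c + f b c a + f c a b else 0) := by
        rw [← Finset.sum_add_distrib, ← Finset.sum_add_distrib]
        refine Finset.sum_congr rfl fun a _ => ?_
        rw [← Finset.sum_add_distrib, ← Finset.sum_add_distrib]
        refine Finset.sum_congr rfl fun b _ => ?_
        rw [← Finset.sum_add_distrib, ← Finset.sum_add_distrib]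
        refine Finset.sum_congr rfl fun c _ => ?_
        by_cases h : a < b ∧ a < c
        · rw [if_pos h, if_pos ⟨h.2, h.1⟩, if_pos h, if_pos h]
          abel
        · rw [if_neg h, if_neg (fun h' => h ⟨h'.2, h'.1⟩), if_neg h, if_neg h]
          simp
    _ = 0 := by
        refine Finset.sum_eq_zero fun a _ => ?_
        refine Finset.sum_eq_zero fun b _ => ?_
        refine Finset.sum_eq_zero fun c _ => ?_
        rw [h4]
        simp

theorem t_JACA : S_JACA.{u} := by
  intro k _ L _ _ E _ _ _ j α h1 h2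
  have h1' : ∀ a b c, α a b c = - α b a c := by
    intro a b c
    have h := h1 (a + b) c
    simp only [map_add, LinearMap.add_apply, h1, zero_add, add_zero] at h
    exact eq_neg_of_add_eq_zero_right (by rw [add_comm] at h; rw [add_comm]; exact h)
  have h2' : ∀ a b c, α a b c = - α a c b := by
    intro a b c
    have h := h2 a (b + c)
    simp only [map_add, LinearMap.add_apply, h2, zero_add, add_zero] at h
    exact eq_neg_of_add_eq_zero_right (by rw [add_comm] at h; rw [add_comm]; exact h)
  have hrot : ∀ a b c, α b c a = α a b c := by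
    intro a b c
    rw [h2' b c a, h1' b a c, neg_neg]
  set b := finBasis k E with hb
  have hexp : ∀ (φ : E →ₗ[k] k), φ = ∑ m, φ (b m) • b.coord m := by
    intro φ
    apply b.ext
    intro i
    simp
  have hBr : Br3 j α = ∑ i, ∑ l, ∑ m, α (b l) (b m) (b i) •
      ⁅⁅j (b.coord l), j (b.coord m)⁆, j (b.coord i)⁆ := by
    unfold Br3 Br
    rw [← hb]
    refine Finset.sum_congr rfl fun i _ => ?_
    rw [sum_lie]
    refine Finset.sum_congr rfl fun l _ => ?_
    have h3 : (α.compr₂ (LinearMap.applyₗ (b i))) (b l) =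
        ∑ m, α (b l) (b m) (b i) • b.coord m := by
      rw [hexp ((α.compr₂ (LinearMap.applyₗ (b i))) (b l))]
      rfl
    rw [h3, map_sum, lie_sum, sum_lie]
    refine Finset.sum_congr rfl fun m _ => ?_
    rw [map_smul, lie_smul, smul_lie]
  rw [hBr]
  refine sum_zero (fun i l m => α (b l) (b m) (b i) •
      ⁅⁅j (b.coord l), j (b.coord m)⁆, j (b.coord i)⁆) ?_ ?_ ?_ ?_
  · intro i m
    show α (b i) (b m) (b i) • _ = _
    rw [hrot (b i) (b i) (b m), h1, zero_smul]
  · intro i l
    show α (b l) (b l) (b i) • _ = _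
    rw [h1, zero_smul]
  · intro i l
    show α (b l) (b i) (b i) • _ = _
    rw [h2, zero_smul]
  · intro i l m
    show α (b l) (b m) (b i) • ⁅⁅j (b.coord l), j (b.coord m)⁆, j (b.coord i)⁆ +
      α (b m) (b i) (b l) • ⁅⁅j (b.coord m), j (b.coord i)⁆, j (b.coord l)⁆ +
      α (b i) (b l) (b m) • ⁅⁅j (b.coord i), j (b.coord l)⁆, j (b.coord m)⁆ = 0
    rw [hrot (b l) (b m) (b i), hrot (b i) (b l) (b m), ← smul_add, ← smul_add]
    have hJ := lie_jacobi (j (b.coord i)) (j (b.coord l)) (j (b.coord m))
    rw [← lie_skew (⁅j (b.coord l), j (b.coord m)⁆) (j (b.coord i)),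
      ← lie_skew (⁅j (b.coord m), j (b.coord i)⁆) (j (b.coord l)),
      ← lie_skew (⁅j (b.coord i), j (b.coord l)⁆) (j (b.coord m)), ← neg_add, ← neg_add, hJ,
      neg_zero, smul_zero]

end Pool.Agent.W753.BK
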